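import Mathlib

namespace Pool.Agent.MP_4ec1df_co.H35

open SimpleGraph

/-- The zero-sum bipartite Ramsey number of the family `C_4, C_6, ..., C_(2m)` over the group
`(Z/2)^d`: the least `N` such that every colouring of the edges of `K_(N,N)` by elements of the
group has a copy of some `C_(2k)`, `2 ≤ k ≤ m`, whose edge colours sum to zero. -/
noncomputable def B (m d : ℕ) : ℕ :=
  sInf {N : ℕ | ∀ c : (completeBipartiteGraph (Fin N) (Fin N)).edgeSet → (Fin d → ZMod 2),
    ∃ k : ℕ, 2 ≤ k ∧ k ≤ m ∧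
      ∃ f : (cycleGraph (2 * k)).Copy (completeBipartiteGraph (Fin N) (Fin N)),
        ∑ e : (cycleGraph (2 * k)).edgeSet, c (f.mapEdgeSet e) = 0}

end Pool.Agent.MP_4ec1df_co.H35
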