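import Mathlib

namespace Pool.Agent.MP_4ec1df_co.H35

open Finset

variable {X V : Type*} [Fintype X] [DecidableEq X] [Fintype V] [DecidableEq V]

/-- Prepend a point to a sequence. -/
def cons (p : X) (x : ℕ → X) : ℕ → X
  | 0 => p
  | k + 1 => x k

/-- Weighted sum of `Φ` over the walks of length `n` starting at `p`. -/
def S (A : Matrix X X ℝ) : ℕ → X → ((ℕ → X) → ℝ) → ℝ
  | 0, p, Φ => Φ fun _ => p
  | n + 1, p, Φ => ∑ w, A p w * S A n w fun x => Φ (cons p x)

omit [DecidableEq X] in
theorem S_mono {A : Matrix X X ℝ} (hA : ∀ p q, 0 ≤ A p q) (n : ℕ) :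
    ∀ (p : X) (Φ Ψ : (ℕ → X) → ℝ),
      (∀ x : ℕ → X, x 0 = p → (∀ k < n, A (x k) (x (k + 1)) ≠ 0) → Φ x ≤ Ψ x) →
      S A n p Φ ≤ S A n p Ψ := by
  induction n with
  | zero => intro p Φ Ψ h; exact h _ rfl (by simp)
  | succ n ih =>
    intro p Φ Ψ h
    simp only [S]
    refine sum_le_sum fun w _ => ?_
    by_cases hw : A p w = 0
    · simp [hw]
    refine mul_le_mul_of_nonneg_left (ih w _ _ fun x hx hx' => h _ rfl ?_) (hA p w)
    intro k hk
    cases k with
    | zero => simpa [cons, hx] using hw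
    | succ k => exact hx' k (by omega)

omit [DecidableEq X] in
theorem S_congr {A : Matrix X X ℝ} (n : ℕ) :
    ∀ (p : X) (Φ Ψ : (ℕ → X) → ℝ), (∀ x : ℕ → X, x 0 = p → Φ x = Ψ x) →
      S A n p Φ = S A n p Ψ := by
  cases n with
  | zero => intro p Φ Ψ h; exact h _ rfl
  | succ n =>
    intro p Φ Ψ h
    simp only [S]
    refine sum_congr rfl fun w _ => ?_
    congr 2
    funext x
    exact h _ rfl

omit [DecidableEq X] in
theorem S_sum {A : Matrix X X ℝ} {ι : Type*} (s : Finset ι) (n : ℕ) :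
    ∀ (p : X) (Φ : ι → (ℕ → X) → ℝ),
      S A n p (fun x => ∑ i ∈ s, Φ i x) = ∑ i ∈ s, S A n p (Φ i) := by
  induction n with
  | zero => intro p Φ; rfl
  | succ n ih =>
    intro p Φ
    simp only [S]
    rw [sum_comm]
    refine sum_congr rfl fun w _ => ?_
    rw [ih w fun i x => Φ i (cons p x), mul_sum]

omit [DecidableEq X] in
theorem S_mul {A : Matrix X X ℝ} (t : ℝ) (n : ℕ) :
    ∀ (p : X) (Φ : (ℕ → X) → ℝ), S A n p (fun x => t * Φ x) = t * S A n p Φ := by
  induction n with
  | zero => intro p Φ; rfl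
  | succ n ih =>
    intro p Φ
    simp only [S]
    rw [mul_sum]
    refine sum_congr rfl fun w _ => ?_
    rw [ih w fun x => Φ (cons p x)]
    ring

theorem S_shift {A : Matrix X X ℝ} (b a : ℕ) :
    ∀ (p : X) (Ψ : (ℕ → X) → ℝ),
      S A (b + a) p (fun x => Ψ fun k => x (k + a)) = ∑ q, (A ^ a) p q * S A b q Ψ := by
  induction a with
  | zero =>
    intro p Ψ
    simp [Matrix.one_apply]
  | succ a ih =>
    intro p Ψ
    have : S A (b + (a + 1)) p (fun x => Ψ fun k => x (k + (a + 1))) =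
        ∑ w, A p w * S A (b + a) w (fun x => Ψ fun k => x (k + a)) := rfl
    rw [this]
    simp only [ih, pow_succ', Matrix.mul_apply, mul_sum, sum_mul]
    rw [sum_comm]
    simp only [mul_assoc]

theorem S_end {A : Matrix X X ℝ} (n : ℕ) (q p : X) :
    S A n q (fun x => if x n = p then 1 else 0) = (A ^ n) q p := by
  have := S_shift (A := A) 0 n q (fun x => if x 0 = p then 1 else 0)
  simp only [zero_add] at this
  rw [this]
  simp [S]

/-- Closed walks through two points of the same fibre at distances `a` and `b`. -/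
def D (A : Matrix X X ℝ) (π : X → V) (a b : ℕ) : ℝ :=
  ∑ p, ∑ q, (if π p = π q then 1 else 0) * ((A ^ a) p q * (A ^ b) q p)

omit [Fintype V] in
theorem D_comm (A : Matrix X X ℝ) (π : X → V) (a b : ℕ) : D A π a b = D A π b a := by
  unfold D
  rw [sum_comm]
  refine sum_congr rfl fun p _ => sum_congr rfl fun q _ => ?_
  simp only [eq_comm (a := π q), mul_comm]

omit [Fintype V] in
theorem sum_S_pair (A : Matrix X X ℝ) (π : X → V) (i a e : ℕ) :
    ∑ p, S A (e + a + i) p
      (fun x => (if π (x i) = π (x (a + i)) then 1 else 0) *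
        (if x (e + a + i) = p then 1 else 0)) = D A π a (e + i) := by
  have h1 : ∀ p, S A (e + a + i) p
      (fun x => (if π (x i) = π (x (a + i)) then 1 else 0) *
        (if x (e + a + i) = p then 1 else 0)) =
      ∑ q, (A ^ i) p q * ∑ q', (A ^ a) q q' * ((if π q = π q' then 1 else 0) * (A ^ e) q' p) := by
    intro p
    have := S_shift (A := A) (e + a) i p (fun y => (if π (y 0) = π (y a) then 1 else 0) *
      (if y (e + a) = p then 1 else 0))
    simp only [zero_add] at this
    rw [this]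
    refine sum_congr rfl fun q _ => ?_
    congr 1
    have h2 := S_shift (A := A) e a q (fun z => (if π q = π (z 0) then 1 else 0) *
      (if z e = p then 1 else 0))
    simp only [zero_add] at h2
    rw [S_congr (e + a) q _ (fun y => (if π q = π (y a) then 1 else 0) *
      (if y (e + a) = p then 1 else 0)) (fun y hy => by rw [hy]), h2]
    refine sum_congr rfl fun q' _ => ?_
    congr 1
    rw [S_congr e q' _ (fun z => (if π q = π q' then 1 else 0) *
      (if z e = p then 1 else 0)) (fun z hz => by rw [hz]), S_mul, S_end]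
  simp only [h1, D, pow_add, Matrix.mul_apply, mul_sum]
  rw [sum_comm]
  refine sum_congr rfl fun q _ => ?_
  rw [sum_comm]
  refine sum_congr rfl fun q' _ => sum_congr rfl fun p _ => ?_
  ring

/-- The number of closed walks of length `2 * l`. -/
def W (A : Matrix X X ℝ) (l : ℕ) : ℝ := ∑ p, ∑ q, ((A ^ l) p q) ^ 2

theorem W_nonneg (A : Matrix X X ℝ) (l : ℕ) : 0 ≤ W A l :=
  sum_nonneg fun _ _ => sum_nonneg fun _ _ => sq_nonneg _

theorem pow_nonneg' {A : Matrix X X ℝ} (hA : ∀ p q, 0 ≤ A p q) (n : ℕ) :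
    ∀ p q, 0 ≤ (A ^ n) p q := by
  induction n with
  | zero => intro p q; rw [pow_zero, Matrix.one_apply]; split_ifs <;> norm_num
  | succ n ih =>
    intro p q
    rw [pow_succ, Matrix.mul_apply]
    exact sum_nonneg fun w _ => mul_nonneg (ih _ _) (hA _ _)

theorem D_sq_le {A : Matrix X X ℝ} {π : X → V} {Δ : ℝ} (h01 : ∀ p q, A p q = 0 ∨ A p q = 1)
    (hrow : ∀ p, ∑ q, A p q ≤ Δ)
    (hfib : ∀ w v, ∑ p, (if π p = v then 1 else 0) * A p w ≤ 1) (a e : ℕ) :
    D A π (a + 1) (e + (a + e + 1)) ^ 2 ≤ Δ * W A (a + e + 1) * W A (a + e) := by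
  have hA : ∀ p q, 0 ≤ A p q := fun p q => by rcases h01 p q with h | h <;> rw [h] <;> norm_num
  have hsq : ∀ p q, A p q * A p q = A p q := fun p q => by
    rcases h01 p q with h | h <;> rw [h] <;> norm_num
  set l := a + e + 1 with hl
  let Q : X → X → V → ℝ := fun w z v =>
    ∑ q, (if v = π q then 1 else 0) * ((A ^ a) w q * (A ^ e) q z)
  have hQ0 : ∀ w z v, 0 ≤ Q w z v := fun w z v => sum_nonneg fun q _ =>
    mul_nonneg (by split_ifs <;> norm_num) (mul_nonneg (pow_nonneg' hA _ _ _) (pow_nonneg' hA _ _ _))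
  have hQsum : ∀ w z, ∑ v, Q w z v = (A ^ (a + e)) w z := by
    intro w z
    simp only [Q]
    rw [sum_comm, pow_add, Matrix.mul_apply]
    refine sum_congr rfl fun q _ => ?_
    simp
  have hD : D A π (a + 1) (e + l) =
      ∑ t : X × X × X, (A t.1 t.2.1 * (A ^ l) t.2.2 t.1) * (A t.1 t.2.1 * Q t.2.1 t.2.2 (π t.1)) := by
    simp only [D, Fintype.sum_prod_type, Q]
    refine sum_congr rfl fun p _ => ?_
    rw [pow_succ', pow_add]
    simp only [Matrix.mul_apply (M := A), Matrix.mul_apply (M := A ^ e), sum_mul_sum]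
    simp only [mul_sum]
    rw [sum_comm]
    refine sum_congr rfl fun w _ => ?_
    rw [sum_comm]
    refine sum_congr rfl fun z _ => sum_congr rfl fun q _ => ?_
    have := hsq p w
    linear_combination (-((if π p = π q then 1 else 0) * (A ^ a) w q * (A ^ e) q z *
      (A ^ l) z p)) * this
  have h1 : ∑ t : X × X × X, (A t.1 t.2.1 * (A ^ l) t.2.2 t.1) ^ 2 ≤ Δ * W A l := by
    simp only [Fintype.sum_prod_type, W]
    rw [sum_comm (f := fun p q => (A ^ l) p q ^ 2), mul_sum]
    refine sum_le_sum fun p _ => ?_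
    calc ∑ w, ∑ z, (A p w * (A ^ l) z p) ^ 2 = (∑ w, A p w) * ∑ z, (A ^ l) z p ^ 2 := by
          rw [sum_mul_sum]
          refine sum_congr rfl fun w _ => sum_congr rfl fun z _ => ?_
          rw [mul_pow, sq, hsq]
      _ ≤ _ := mul_le_mul_of_nonneg_right (hrow p) (sum_nonneg fun _ _ => sq_nonneg _)
  have h2 : ∑ t : X × X × X, (A t.1 t.2.1 * Q t.2.1 t.2.2 (π t.1)) ^ 2 ≤ W A (a + e) := by
    simp only [Fintype.sum_prod_type, W]
    rw [sum_comm]
    refine sum_le_sum fun w _ => ?_
    rw [sum_comm]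
    refine sum_le_sum fun z _ => ?_
    calc ∑ p, (A p w * Q w z (π p)) ^ 2
        = ∑ v, (∑ p, (if π p = v then 1 else 0) * A p w) * Q w z v ^ 2 := by
          simp only [sum_mul]
          rw [sum_comm]
          refine sum_congr rfl fun p _ => ?_
          rw [mul_pow, sq (A p w), hsq]
          simp
      _ ≤ ∑ v, Q w z v ^ 2 := by
          refine sum_le_sum fun v _ => ?_
          exact mul_le_of_le_one_left (sq_nonneg _) (hfib w v)
      _ ≤ (∑ v, Q w z v) ^ 2 := sum_sq_le_sq_sum_of_nonneg fun v _ => hQ0 w z v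
      _ = _ := by rw [hQsum]
  rw [hD]
  refine (sum_mul_sq_le_sq_mul_sq _ _ _).trans ?_
  exact mul_le_mul h1 h2 (sum_nonneg fun _ _ => sq_nonneg _)
    (le_trans (sum_nonneg fun _ _ => sq_nonneg _) h1)

theorem W_step {A : Matrix X X ℝ} {π : X → V} {Δ : ℝ} (h01 : ∀ p q, A p q = 0 ∨ A p q = 1)
    (hsymm : A.IsSymm) (hΔ : 0 ≤ Δ) (hrow : ∀ p, ∑ q, A p q ≤ Δ)
    (hfib : ∀ w v, ∑ p, (if π p = v then 1 else 0) * A p w ≤ 1) (l : ℕ)
    (hno : ∀ x : ℕ → X, (∀ k < 2 * (l + 1), A (x k) (x (k + 1)) ≠ 0) → x (2 * (l + 1)) = x 0 →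
      ∃ j < 2 * (l + 1), ∃ i < j, π (x i) = π (x j)) :
    W A (l + 1) ≤ (2 * (l + 1) : ℝ) ^ 4 * Δ * W A l := by
  have hA : ∀ p q, 0 ≤ A p q := fun p q => by rcases h01 p q with h | h <;> rw [h] <;> norm_num
  set n := 2 * (l + 1) with hn
  set R := Real.sqrt (Δ * W A (l + 1) * W A l) with hR
  have hDle : ∀ a b, 1 ≤ a → 1 ≤ b → a + b = n → D A π a b ≤ R := by
    have key : ∀ a b, 1 ≤ a → a ≤ b → a + b = n → D A π a b ≤ R := by
      intro a b ha hab h
      obtain ⟨a', rfl⟩ : ∃ a', a = a' + 1 := ⟨a - 1, by omega⟩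
      obtain ⟨e, rfl⟩ : ∃ e, l = a' + e := ⟨l - a', by omega⟩
      have hb : b = e + (a' + e + 1) := by omega
      rw [hb]
      exact Real.le_sqrt_of_sq_le (D_sq_le h01 hrow hfib a' e)
    intro a b ha hb h
    rcases le_total a b with hab | hab
    · exact key a b ha hab h
    · rw [D_comm]; exact key b a hb hab (by omega)
  have hW : W A (l + 1) = ∑ p, S A n p (fun x => if x n = p then 1 else 0) := by
    simp only [S_end, W]
    refine sum_congr rfl fun p _ => ?_
    rw [hn, two_mul, pow_add A (l + 1) (l + 1), Matrix.mul_apply]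
    refine sum_congr rfl fun q _ => ?_
    rw [sq, (hsymm.pow (l + 1)).apply p q]
  have hmain : W A (l + 1) ≤ (n : ℝ) ^ 2 * R := by
    calc W A (l + 1) ≤ ∑ p, S A n p (fun x => ∑ j ∈ range n, ∑ i ∈ range j,
            (if π (x i) = π (x j) then 1 else 0) * (if x n = p then 1 else 0)) := by
          rw [hW]
          refine sum_le_sum fun p _ => S_mono hA n p _ _ fun x hx0 hx => ?_
          by_cases hxn : x n = p
          · obtain ⟨j, hj, i, hi, hij⟩ := hno x hx (hxn.trans hx0.symm)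
            simp only [hxn, if_true, mul_one]
            have hnn : ∀ j i, (0 : ℝ) ≤ if π (x i) = π (x j) then 1 else 0 := fun j i => by
              split_ifs <;> norm_num
            calc (1 : ℝ) = if π (x i) = π (x j) then 1 else 0 := by rw [if_pos hij]
              _ ≤ ∑ i ∈ range j, if π (x i) = π (x j) then 1 else 0 :=
                single_le_sum (f := fun i => if π (x i) = π (x j) then (1 : ℝ) else 0)
                  (fun i _ => hnn j i) (mem_range.mpr hi)
              _ ≤ _ := single_le_sum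
                  (f := fun j => ∑ i ∈ range j, if π (x i) = π (x j) then (1 : ℝ) else 0)
                  (fun j _ => sum_nonneg fun i _ => hnn j i) (mem_range.mpr hj)
          · simp [hxn]
      _ = ∑ j ∈ range n, ∑ i ∈ range j, ∑ p, S A n p (fun x =>
            (if π (x i) = π (x j) then 1 else 0) * (if x n = p then 1 else 0)) := by
          simp only [S_sum]
          rw [sum_comm]
          refine sum_congr rfl fun j _ => ?_
          rw [sum_comm]
      _ ≤ ∑ j ∈ range n, ∑ i ∈ range j, R := by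
          refine sum_le_sum fun j hj => sum_le_sum fun i hi => ?_
          rw [mem_range] at hj hi
          obtain ⟨a, rfl⟩ : ∃ a, j = a + i := ⟨j - i, by omega⟩
          obtain ⟨e, he⟩ : ∃ e, n = e + a + i := ⟨n - (a + i), by omega⟩
          have := sum_S_pair A π i a e
          rw [← he] at this
          rw [this]
          exact hDle _ _ (by omega) (by omega) (by omega)
      _ ≤ ∑ j ∈ range n, (n : ℝ) * R := by
          refine sum_le_sum fun j hj => ?_
          rw [mem_range] at hj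
          rw [sum_const, card_range, nsmul_eq_mul]
          exact mul_le_mul_of_nonneg_right (by exact_mod_cast hj.le) (Real.sqrt_nonneg _)
      _ = _ := by rw [sum_const, card_range, nsmul_eq_mul]; ring
  have hW1 := W_nonneg A (l + 1)
  have hW0 := W_nonneg A l
  have hR2 : R ^ 2 = Δ * W A (l + 1) * W A l := Real.sq_sqrt (by positivity)
  have hcast : (2 * (l + 1) : ℝ) = n := by rw [hn]; push_cast; ring
  rw [hcast]
  rcases hW1.eq_or_lt with h0 | hpos
  · rw [← h0]; positivity
  · have h3 : W A (l + 1) ^ 2 ≤ ((n : ℝ) ^ 2 * R) ^ 2 := pow_le_pow_left₀ hW1 hmain 2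
    rw [mul_pow, hR2] at h3
    refine le_of_mul_le_mul_left ?_ hpos
    nlinarith

theorem degree_bound [Nonempty X] {A : Matrix X X ℝ} {π : X → V} {Δ : ℝ}
    (h01 : ∀ p q, A p q = 0 ∨ A p q = 1)
    (hsymm : A.IsSymm) (hΔ : 0 < Δ) (hrow : ∀ p, ∑ q, A p q = Δ)
    (hfib : ∀ w v, ∑ p, (if π p = v then 1 else 0) * A p w ≤ 1) (m : ℕ)
    (hno : ∀ k, 2 ≤ k → k ≤ m → ∀ x : ℕ → X, (∀ i < 2 * k, A (x i) (x (i + 1)) ≠ 0) →
      x (2 * k) = x 0 → ∃ j < 2 * k, ∃ i < j, π (x i) = π (x j)) (hm : 1 ≤ m) :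
    Δ ^ m ≤ (2 * m : ℝ) ^ (4 * m) * Fintype.card X := by
  have hsq : ∀ p q, A p q * A p q = A p q := fun p q => by
    rcases h01 p q with h | h <;> rw [h] <;> norm_num
  have hm1 : (1 : ℝ) ≤ 2 * m := by
    have : (1 : ℝ) ≤ m := by exact_mod_cast hm
    linarith
  have hup : ∀ l, l + 1 ≤ m →
      W A (l + 1) ≤ (2 * m : ℝ) ^ (4 * (l + 1)) * Δ ^ (l + 1) * Fintype.card X := by
    intro l
    induction l with
    | zero =>
      intro _
      have : W A 1 = Δ * Fintype.card X := by
        simp only [W, pow_one, sq, hsq, hrow, sum_const, card_univ, nsmul_eq_mul]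
        ring
      rw [zero_add, this, pow_one]
      gcongr
      exact le_mul_of_one_le_left hΔ.le (one_le_pow₀ hm1)
    | succ l ih =>
      intro hl
      have h1 := W_step h01 hsymm hΔ.le (fun p => (hrow p).le) hfib (l + 1)
        (hno (l + 1 + 1) (by omega) hl)
      have h2 := ih (by omega)
      have h3 : (2 * ((l + 1 : ℕ) + 1) : ℝ) ≤ 2 * m := by
        have : ((l + 1 + 1 : ℕ) : ℝ) ≤ m := by exact_mod_cast hl
        push_cast at this ⊢
        linarith
      calc W A (l + 1 + 1) ≤ _ := h1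
        _ ≤ (2 * m : ℝ) ^ 4 * Δ * ((2 * m : ℝ) ^ (4 * (l + 1)) * Δ ^ (l + 1) * Fintype.card X) := by
            have := W_nonneg A (l + 1)
            gcongr
        _ = _ := by ring
  have hrowpow : ∀ n p, ∑ q, (A ^ n) p q = Δ ^ n := by
    intro n
    induction n with
    | zero => intro p; simp [Matrix.one_apply]
    | succ n ih =>
      intro p
      simp only [pow_succ, Matrix.mul_apply]
      rw [sum_comm]
      simp only [← mul_sum, hrow, ← sum_mul, ih]
  have hlow : Δ ^ m * Δ ^ m ≤ W A m := by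
    have h1 := sq_sum_le_card_mul_sum_sq (s := (univ : Finset (X × X)))
      (f := fun t => (A ^ m) t.1 t.2)
    simp only [Fintype.sum_prod_type, hrowpow, sum_const, card_univ, nsmul_eq_mul,
      Fintype.card_prod, Nat.cast_mul] at h1
    have hc : (0 : ℝ) < Fintype.card X := by exact_mod_cast Fintype.card_pos
    have h2 : (0 : ℝ) < Fintype.card X * Fintype.card X := by positivity
    refine le_of_mul_le_mul_left ?_ h2
    calc _ = ((Fintype.card X : ℝ) * Δ ^ m) ^ 2 := by ring
      _ ≤ _ := h1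
  obtain ⟨l, rfl⟩ : ∃ l, m = l + 1 := ⟨m - 1, by omega⟩
  have h4 := hlow.trans (hup l le_rfl)
  refine le_of_mul_le_mul_left ?_ (pow_pos hΔ (l + 1))
  calc _ ≤ _ := h4
    _ = _ := by ring

end Pool.Agent.MP_4ec1df_co.H35
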