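import Mathlib
import Pool.Agent.MP_4ec1df_co.H35.Defs
import Pool.Agent.MP_4ec1df_co.H35.Walks

namespace Pool.Agent.MP_4ec1df_co.H35

open Finset SimpleGraph

theorem cyc_adj {n : ℕ} (i : Fin (n + 3)) : (cycleGraph (n + 3)).Adj i (i + 1) := by
  rw [cycleGraph_adj]; right; simp

theorem two_ne {n : ℕ} (i : Fin (n + 3)) : i + 1 + 1 ≠ i := by
  intro h
  rw [add_assoc, add_eq_left] at h
  have : ((1 + 1 : Fin (n + 3)) : ℕ) = 2 := by
    rw [Fin.val_add]
    simp only [Fin.val_one]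
    exact Nat.mod_eq_of_lt (by omega)
  rw [h] at this
  simp at this

theorem sum_cycle {Γ : Type*} [AddCommMonoid Γ] {n : ℕ} (g : Sym2 (Fin (n + 3)) → Γ) :
    ∑ e : (cycleGraph (n + 3)).edgeSet, g e = ∑ i : Fin (n + 3), g s(i, i + 1) := by
  symm
  refine Fintype.sum_bijective (fun i => ⟨s(i, i + 1), cyc_adj i⟩) ⟨?_, ?_⟩ _ _ fun _ => rfl
  · intro i j h
    have h' : s(i, i + 1) = s(j, j + 1) := congrArg Subtype.val h
    rcases Sym2.eq_iff.mp h' with ⟨h1, -⟩ | ⟨h1, h2⟩
    · exact h1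
    · rw [h1] at h2
      exact absurd h2 (two_ne j)
  · rintro ⟨e, he⟩
    induction e using Sym2.ind with
    | _ u v =>
      rw [mem_edgeSet, cycleGraph_adj] at he
      rcases he with h | h
      · refine ⟨v, Subtype.ext ?_⟩
        have : u = v + 1 := by rw [← h]; abel
        simp [this]
      · refine ⟨u, Subtype.ext ?_⟩
        have : v = u + 1 := by rw [← h]; abel
        simp [this]

abbrev KN (N : ℕ) : SimpleGraph (Fin N ⊕ Fin N) := completeBipartiteGraph (Fin N) (Fin N)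

/-- A cyclic sequence gives a zero-sum copy. -/
theorem copy_of_seq {Γ : Type*} [AddCommGroup Γ] {V : Type*} (G : SimpleGraph V)
    (c : G.edgeSet → Γ) (c' : Sym2 V → Γ) (hc : ∀ e : G.edgeSet, c' e = c e) (n : ℕ) (hn : 3 ≤ n)
    (y : ℕ → V) (hadj : ∀ i < n, G.Adj (y i) (y (i + 1))) (hcl : y n = y 0)
    (hinj : ∀ j < n, ∀ i < j, y i ≠ y j) (hsum : ∑ i ∈ range n, c' s(y i, y (i + 1)) = 0) :
    ∃ f : (cycleGraph n).Copy G, ∑ e : (cycleGraph n).edgeSet, c (f.mapEdgeSet e) = 0 := by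
  obtain ⟨n, rfl⟩ : ∃ k, n = k + 3 := ⟨n - 3, by omega⟩
  have hsucc : ∀ i : Fin (n + 3), y ((i + 1 : Fin (n + 3)) : ℕ) = y (i + 1) := by
    intro i
    rw [Fin.val_add_one]
    split_ifs with h
    · rw [h, Fin.val_last, ← hcl]
    · rfl
  have hadj' : ∀ i : Fin (n + 3), G.Adj (y i) (y ((i + 1 : Fin (n + 3)) : ℕ)) := fun i => by
    rw [hsucc]; exact hadj i i.2
  let φ : cycleGraph (n + 3) →g G :=
    { toFun := fun i => y i
      map_rel' := by
        intro u v h
        rw [cycleGraph_adj] at h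
        rcases h with h | h
        · have : u = v + 1 := by rw [← h]; abel
          rw [this]; exact (hadj' v).symm
        · have : v = u + 1 := by rw [← h]; abel
          rw [this]; exact hadj' u }
  have hφ : Function.Injective φ := by
    intro u v h
    have h' : y u = y v := h
    rcases lt_trichotomy u v with h1 | h1 | h1
    · exact absurd h' (hinj v v.2 u h1)
    · exact h1
    · exact absurd h'.symm (hinj u u.2 v h1)
  refine ⟨φ.toCopy hφ, ?_⟩
  have h1 : ∀ e : (cycleGraph (n + 3)).edgeSet,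
      c ((φ.toCopy hφ).mapEdgeSet e) = c' (Sym2.map (fun i : Fin (n + 3) => y i) e) :=
    fun e => (hc _).symm
  simp only [h1]
  rw [sum_cycle fun e => c' (Sym2.map (fun i : Fin (n + 3) => y i) e), ← hsum,
    ← Fin.sum_univ_eq_sum_range (fun i => c' s(y i, y (i + 1)))]
  refine sum_congr rfl fun i _ => ?_
  rw [Sym2.map_mk, hsucc]

theorem upper {m d N : ℕ} (hm : 1 ≤ m) (hN : 1 ≤ N)
    (h : (2 * m : ℝ) ^ (4 * m) * 2 * 2 ^ d < (N : ℝ) ^ (m - 1))
    (c : (KN N).edgeSet → (Fin d → ZMod 2)) :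
    ∃ k : ℕ, 2 ≤ k ∧ k ≤ m ∧ ∃ f : (cycleGraph (2 * k)).Copy (KN N),
      ∑ e : (cycleGraph (2 * k)).edgeSet, c (f.mapEdgeSet e) = 0 := by
  classical
  by_contra hcon
  let Γ := Fin d → ZMod 2
  let c' : Sym2 (Fin N ⊕ Fin N) → Γ := Function.extend Subtype.val c 0
  have hc : ∀ e : (KN N).edgeSet, c' e = c e := fun e => Subtype.val_injective.extend_apply c 0 e
  have h2 : ∀ g : Γ, g + g = 0 := fun g => by
    funext i; exact CharTwo.add_self_eq_zero (g i)
  let X := (Fin N ⊕ Fin N) × Γ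
  let A : Matrix X X ℝ := fun p q =>
    if (KN N).Adj p.1 q.1 ∧ q.2 = p.2 + c' s(p.1, q.1) then 1 else 0
  have hswap : ∀ p q : X, ((KN N).Adj p.1 q.1 ∧ q.2 = p.2 + c' s(p.1, q.1)) →
      ((KN N).Adj q.1 p.1 ∧ p.2 = q.2 + c' s(q.1, p.1)) := by
    rintro p q ⟨h1, h3⟩
    refine ⟨h1.symm, ?_⟩
    rw [h3, Sym2.eq_swap, add_assoc, h2, add_zero]
  have hsymm : A.IsSymm := by
    ext p q
    simp only [Matrix.transpose_apply, A]
    exact if_congr ⟨hswap q p, hswap p q⟩ rfl rfl
  have : Nonempty X := ⟨(Sum.inl ⟨0, hN⟩, 0)⟩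
  have hrow : ∀ p, ∑ q, A p q = (N : ℝ) := by
    rintro ⟨u, g⟩
    simp only [A, X, Fintype.sum_prod_type, ite_and]
    have : ∀ v, (∑ g' : Γ, if (KN N).Adj u v then (if g' = g + c' s(u, v) then (1 : ℝ) else 0)
        else 0) = if (KN N).Adj u v then 1 else 0 := by
      intro v
      by_cases hv : (KN N).Adj u v
      · simp only [if_pos hv]
        rw [sum_eq_single (g + c' s(u, v)) (fun b _ hb => if_neg hb)
          (fun h => absurd (mem_univ _) h), if_pos rfl]
      · simp only [if_neg hv, sum_const_zero]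
    simp only [this]
    rw [Fintype.sum_sum_type]
    rcases u with u | u <;> simp
  have hfib : ∀ (w : X) (v : Fin N ⊕ Fin N),
      ∑ p : X, (if p.1 = v then 1 else 0) * A p w ≤ 1 := by
    intro w v
    have : ∀ p : X, (if p.1 = v then 1 else 0) * A p w ≤
        if p = (v, w.2 + c' s(w.1, v)) then 1 else 0 := by
      intro p
      by_cases h1 : p.1 = v
      · by_cases h3 : (KN N).Adj p.1 w.1 ∧ w.2 = p.2 + c' s(p.1, w.1)
        · have := (hswap p w h3).2
          rw [if_pos h1, if_pos (Prod.ext h1 (by rw [this, h1]))]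
          simp only [A, if_pos h3, mul_one, le_refl]
        · simp only [A, if_neg h3, mul_zero]
          split_ifs <;> norm_num
      · rw [if_neg h1, zero_mul]
        split_ifs <;> norm_num
    refine (sum_le_sum fun p _ => this p).trans ?_
    rw [sum_ite_eq' univ, if_pos (mem_univ _)]
  have hN' : (0 : ℝ) < N := by exact_mod_cast hN
  have key := degree_bound (A := A) (π := Prod.fst) (Δ := (N : ℝ))
    (fun p q => by simp only [A]; split_ifs <;> simp) hsymm hN' hrow hfib m ?_ hm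
  · have hcard : (Fintype.card X : ℝ) = 2 * N * 2 ^ d := by
      simp only [X, Γ, Fintype.card_prod, Fintype.card_sum, Fintype.card_fin, Fintype.card_fun,
        ZMod.card]
      push_cast; ring
    rw [hcard] at key
    have e : (N : ℝ) ^ m = N * (N : ℝ) ^ (m - 1) := by
      rw [← pow_succ']; congr 1; omega
    rw [e] at key
    nlinarith
  · intro k hk2 hkm x hx hcl
    by_contra hne
    push Not at hne
    have hx' : ∀ i < 2 * k, (KN N).Adj (x i).1 (x (i + 1)).1 ∧
        (x (i + 1)).2 = (x i).2 + c' s((x i).1, (x (i + 1)).1) := by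
      intro i hi
      by_contra h3
      exact hx i hi (by simp only [A, if_neg h3])
    refine hcon ⟨k, hk2, hkm, copy_of_seq (KN N) c c' hc (2 * k) (by omega) (fun i => (x i).1)
      (fun i hi => (hx' i hi).1) (by simp only [hcl]) hne ?_⟩
    calc ∑ i ∈ range (2 * k), c' s((x i).1, (x (i + 1)).1)
        = ∑ i ∈ range (2 * k), ((x (i + 1)).2 - (x i).2) := by
          refine sum_congr rfl fun i hi => ?_
          rw [(hx' i (mem_range.mp hi)).2]; abel
      _ = 0 := by rw [sum_range_sub (fun i => (x i).2), hcl, sub_self]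

theorem lower_aux {F : Type*} [Field F] [CharP F 2] {N m n : ℕ} (ι : Fin N → F)
    (hι : Function.Injective ι) (hn : n + 3 ≤ 2 * m) (f : Fin (n + 3) → Fin N ⊕ Fin N)
    (hf : Function.Injective f) (hadj : ∀ i, (KN N).Adj (f i) (f (i + 1)))
    (hsum : ∀ j, 1 ≤ j → j < m → ∑ i,
      (Sum.elim (fun x => ι x ^ j) 0 (f i) * Sum.elim (fun _ => 0) ι (f (i + 1)) +
        Sum.elim (fun x => ι x ^ j) 0 (f (i + 1)) * Sum.elim (fun _ => 0) ι (f i)) = 0) : False := by
  classical
  let b : Fin N ⊕ Fin N → F := Sum.elim (fun _ => 0) ι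
  let w : ℕ → Fin N ⊕ Fin N → F := fun j => Sum.elim (fun x => ι x ^ j) 0
  have hall : ∀ j < m, ∑ i, (w j (f i) * b (f (i + 1)) + w j (f (i + 1)) * b (f i)) = 0 := by
    intro j hj
    rcases Nat.eq_zero_or_pos j with rfl | hj0
    · have : ∀ i, w 0 (f i) * b (f (i + 1)) + w 0 (f (i + 1)) * b (f i) =
          b (f (i + 1)) + b (f i) := by
        intro i
        have := hadj i
        rcases h1 : f i with x | x <;> rcases h2 : f (i + 1) with y | y <;>
          simp [h1, h2, w, b] at this ⊢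
      simp only [this, sum_add_distrib]
      rw [show ∑ i, b (f (i + 1)) = ∑ i, b (f i) from
        Equiv.sum_comp (Equiv.addRight (1 : Fin (n + 3))) (fun i => b (f i))]
      exact CharTwo.add_self_eq_zero _
    · exact hsum j hj0 hj
  have hall' : ∀ j < m, ∑ i, w j (f (i + 1)) * (b (f (i + 1 + 1)) + b (f i)) = 0 := by
    intro j hj
    rw [← hall j hj]
    simp only [mul_add, sum_add_distrib]
    rw [show ∑ i, w j (f (i + 1)) * b (f (i + 1 + 1)) = ∑ i, w j (f i) * b (f (i + 1)) from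
      Equiv.sum_comp (Equiv.addRight (1 : Fin (n + 3))) (fun i => w j (f i) * b (f (i + 1)))]
  let I : Finset (Fin (n + 3)) := univ.filter fun i => (f (i + 1)).isLeft
  have hmemI : ∀ i, i ∈ I ↔ (f (i + 1)).isLeft := fun i => by simp [I]
  have hcard : I.card ≤ m := by
    have h1 : I.card ≤ Iᶜ.card := by
      refine card_le_card_of_injOn (fun i => i + 1) ?_ (add_left_injective 1).injOn
      intro i hi
      have hi' := (hmemI i).mp (mem_coe.mp hi)
      rw [mem_coe, mem_compl, hmemI]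
      have := hadj (i + 1)
      rcases h1 : f (i + 1) with x | x <;> rcases h2 : f (i + 1 + 1) with y | y <;>
        simp [h1, h2] at this hi' ⊢
    have h2 := card_add_card_compl I
    rw [Fintype.card_fin] at h2
    omega
  have hne : I.Nonempty := by
    obtain ⟨i0⟩ : Nonempty (Fin (n + 3)) := inferInstance
    have := hadj (i0 + 1)
    by_cases h : (f (i0 + 1)).isLeft
    · exact ⟨i0, (hmemI i0).mpr h⟩
    · refine ⟨i0 + 1, (hmemI _).mpr ?_⟩
      rcases h1 : f (i0 + 1) with x | x <;> rcases h2 : f (i0 + 1 + 1) with y | y <;>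
        simp [h1, h2] at this h ⊢
  let a : Fin N ⊕ Fin N → F := Sum.elim ι 0
  let e := I.equivFin.symm
  have hV := Matrix.eq_zero_of_forall_pow_sum_mul_pow_eq_zero
    (f := fun t : Fin I.card => a (f (e t + 1)))
    (v := fun t => b (f (e t + 1 + 1)) + b (f (e t))) ?_ ?_
  · obtain ⟨i, hi⟩ := hne
    have h1 := congrFun hV (e.symm ⟨i, hi⟩)
    simp only [Equiv.apply_symm_apply, Pi.zero_apply] at h1
    have hi' := (hmemI i).mp hi
    have ha1 := hadj i
    have ha2 := hadj (i + 1)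
    have hne' : f (i + 1 + 1) ≠ f i := fun h => two_ne i (hf h)
    rw [CharTwo.add_eq_zero] at h1
    rcases h0 : f i with x | x <;> rcases h2 : f (i + 1) with y | y <;>
      rcases h3 : f (i + 1 + 1) with z | z <;> simp [h0, h2, h3, b] at h1 hi' ha1 ha2 hne'
    exact hne' (hι h1)
  · intro s t hst
    have hs := (hmemI _).mp (e s).2
    have ht := (hmemI _).mp (e t).2
    simp only at hst
    have : f (e s + 1) = f (e t + 1) := by
      rcases h1 : f (e s + 1) with x | x <;> rcases h2 : f (e t + 1) with y | y <;>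
        simp [h1, h2, a] at hs ht hst ⊢
      exact hι hst
    exact e.injective (Subtype.ext (add_left_injective 1 (hf this)))
  · intro j
    rw [← hall' j (lt_of_lt_of_le j.2 hcard)]
    rw [Equiv.sum_comp e (fun i : I => (b (f (i + 1 + 1)) + b (f i)) * a (f (i + 1)) ^ (j : ℕ)),
      sum_coe_sort I (fun i => (b (f (i + 1 + 1)) + b (f i)) * a (f (i + 1)) ^ (j : ℕ)),
      sum_filter]
    refine sum_congr rfl fun i _ => ?_
    rcases h1 : f (i + 1) with x | x <;> simp [w, a, mul_comm]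

theorem lower {m d N r : ℕ} (hr : 1 ≤ r) (hd : (m - 1) * r ≤ d) (hN : N ≤ 2 ^ r) :
    ∃ c : (KN N).edgeSet → (Fin d → ZMod 2), ∀ k : ℕ, 2 ≤ k → k ≤ m →
      ∀ f : (cycleGraph (2 * k)).Copy (KN N),
        ∑ e : (cycleGraph (2 * k)).edgeSet, c (f.mapEdgeSet e) ≠ 0 := by
  classical
  let F := GaloisField 2 r
  have : Fintype F := Fintype.ofFinite F
  have hF : Fintype.card F = 2 ^ r := by
    rw [← Nat.card_eq_fintype_card]; exact GaloisField.card 2 r (by omega)
  obtain ⟨ι⟩ : Nonempty (Fin N ↪ F) :=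
    Function.Embedding.nonempty_of_card_le (by rw [hF, Fintype.card_fin]; exact hN)
  obtain ⟨φ, hφ⟩ : ∃ φ : (Fin (m - 1) → F) →ₗ[ZMod 2] (Fin d → ZMod 2), Function.Injective φ := by
    rw [← finrank_le_iff_exists_linearMap, Module.finrank_pi_fintype,
      Module.finrank_fintype_fun_eq_card, GaloisField.finrank 2 (by omega : r ≠ 0)]
    simpa using hd
  let g : ℕ → Sym2 (Fin N ⊕ Fin N) → F := fun j => Sym2.lift ⟨fun u v =>
    Sum.elim (fun x => ι x ^ j) 0 u * Sum.elim (fun _ => 0) ι v +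
      Sum.elim (fun x => ι x ^ j) 0 v * Sum.elim (fun _ => 0) ι u, fun u v => add_comm _ _⟩
  refine ⟨fun e => φ fun j => g (j + 1) e, ?_⟩
  intro k hk2 hkm
  obtain ⟨n, hn⟩ : ∃ n, 2 * k = n + 3 := ⟨2 * k - 3, by omega⟩
  rw [hn]
  intro f hf
  rw [← map_sum, map_eq_zero_iff φ hφ] at hf
  refine lower_aux (m := m) ι ι.injective (by omega) f f.injective
    (fun i => f.toHom.map_rel (cyc_adj i)) ?_
  intro j hj1 hjm
  have h1 := congrFun hf ⟨j - 1, by omega⟩
  rw [Finset.sum_apply] at h1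
  have h2 : j - 1 + 1 = j := by omega
  simp only [h2, Pi.zero_apply] at h1
  have h3 := sum_cycle fun e : Sym2 (Fin (n + 3)) => g j (Sym2.map f e)
  exact h3.symm.trans h1

theorem main (m : ℕ) (hm : 2 ≤ m) : ∃ c C : ℝ, 0 < c ∧ c ≤ C ∧ ∃ d₀ : ℕ, ∀ d ≥ d₀,
    c * (2 : ℝ) ^ ((d : ℝ) / (m - 1)) ≤ B m d ∧ (B m d : ℝ) ≤ C * (2 : ℝ) ^ ((d : ℝ) / (m - 1)) := by
  set K : ℝ := (2 * m : ℝ) ^ (4 * m) * 2 with hK
  have hm' : (2 : ℝ) ≤ m := by exact_mod_cast hm
  have hK1 : 1 ≤ K := by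
    have : (1 : ℝ) ≤ (2 * m : ℝ) ^ (4 * m) := one_le_pow₀ (by linarith)
    linarith
  refine ⟨1 / 2, 2 * K, by norm_num, by linarith, m - 1, fun d hd => ?_⟩
  set y : ℝ := (2 : ℝ) ^ ((d : ℝ) / (m - 1)) with hy
  have hm1 : (0 : ℝ) < m - 1 := by linarith
  have hy1 : 1 ≤ y := Real.one_le_rpow (by norm_num) (by positivity)
  have hcast : ((m - 1 : ℕ) : ℝ) = m - 1 := by rw [Nat.cast_sub (by omega)]; simp
  have hypow : y ^ (m - 1) = 2 ^ d := by
    rw [hy, ← Real.rpow_natCast, ← Real.rpow_mul (by norm_num), hcast,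
      div_mul_cancel₀ _ hm1.ne', Real.rpow_natCast]
  have hKy : 1 ≤ K * y := one_le_mul_of_one_le_of_one_le hK1 hy1
  have hmem : (⌊K * y⌋₊ + 1) ∈ {N : ℕ |
      ∀ c : (completeBipartiteGraph (Fin N) (Fin N)).edgeSet → (Fin d → ZMod 2),
      ∃ k : ℕ, 2 ≤ k ∧ k ≤ m ∧
        ∃ f : (cycleGraph (2 * k)).Copy (completeBipartiteGraph (Fin N) (Fin N)),
          ∑ e : (cycleGraph (2 * k)).edgeSet, c (f.mapEdgeSet e) = 0} := by
    intro c
    refine upper (by omega) (by omega) ?_ c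
    have h1 : K * y < ((⌊K * y⌋₊ + 1 : ℕ) : ℝ) := by
      push_cast; exact Nat.lt_floor_add_one _
    calc K * 2 ^ d ≤ K ^ (m - 1) * 2 ^ d := by
          gcongr
          exact le_self_pow₀ hK1 (by omega)
      _ = (K * y) ^ (m - 1) := by rw [mul_pow K y, hypow]
      _ < _ := pow_lt_pow_left₀ h1 (by positivity) (by omega)
  constructor
  · have hB := Nat.sInf_mem ⟨_, hmem⟩
    set r := d / (m - 1) with hr
    have hr1 : 1 ≤ r := (Nat.le_div_iff_mul_le (by omega)).mpr (by omega)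
    have hlt : 2 ^ r < B m d := by
      by_contra hle
      obtain ⟨c, hc⟩ := lower (m := m) (d := d) hr1 (Nat.mul_div_le d (m - 1)) (not_lt.mp hle)
      obtain ⟨k, hk2, hkm, f, hf⟩ := hB c
      exact hc k hk2 hkm f hf
    have h1 : (d : ℝ) / (m - 1) ≤ (r + 1 : ℕ) := by
      rw [div_le_iff₀ hm1, ← hcast]
      have := Nat.lt_mul_div_succ d (show 0 < m - 1 by omega)
      rw [mul_comm] at this
      exact_mod_cast this.le
    have h2 : y ≤ (2 : ℝ) ^ (r + 1) := by
      rw [hy, ← Real.rpow_natCast]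
      exact Real.rpow_le_rpow_of_exponent_le (by norm_num) h1
    have h3 : (2 : ℝ) ^ r ≤ B m d := by exact_mod_cast hlt.le
    rw [pow_succ] at h2
    linarith
  · have h1 : B m d ≤ ⌊K * y⌋₊ + 1 := Nat.sInf_le hmem
    have h2 : (B m d : ℝ) ≤ ⌊K * y⌋₊ + 1 := by exact_mod_cast h1
    have h3 : (⌊K * y⌋₊ : ℝ) ≤ K * y := Nat.floor_le (by positivity)
    linarith

end Pool.Agent.MP_4ec1df_co.H35
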